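import Pool.Agent.Results.MP_9e6edb_gt.NotLocallyCompact
import Pool.Agent.Results.MP_31ff53_gt.NotDetermined

set_option autoImplicit false

/-!
# Basically disconnected spaces with a cocompact pretty base: a point without small neighbourhoods
-/

open Set Filter Topology TopologicalSpace Cardinal

namespace Pool.Agent.Results.MP_9e6edb_gt.NotLocallyWeaklyLindelof

open Pool.Agent.Helper614.PB
open Pool.Agent.Results.MP_9e6edb_gt.NotLocallyCompact
open Pool.Agent.Results.MP_31ff53_gt.NotDetermined (XX uu kap DD a0 good small cases not_open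
  closure_clopen P_le kclosed)

/-- The subspace `S` of `X` is weakly `λ`-Lindelöf, where `λ = max(|P|, ℵ₀)`: every family of open
sets of `X` covering `S` has a subfamily of at most `λ` members whose union is dense in `S`. -/
def WeaklyLindelof (P : Type) {X : Type} [TopologicalSpace X] (S : Set X) : Prop :=
  ∀ 𝒰 : Set (Set X), (∀ U ∈ 𝒰, IsOpen U) → S ⊆ ⋃₀ 𝒰 →
    ∃ 𝒱 ⊆ 𝒰, #𝒱 ≤ #(P ⊕ ℕ) ∧ S ⊆ closure (S ∩ ⋃₀ 𝒱)

theorem weaklyLindelof_of_isCompact (P : Type) {X : Type} [TopologicalSpace X] {K : Set X}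
    (hK : IsCompact K) : WeaklyLindelof P K := by
  intro 𝒰 h1 h2
  obtain ⟨𝒱, h3, h4, h5⟩ := hK.elim_finite_subcover_image (b := 𝒰) (c := id) h1 (by
    rwa [Set.sUnion_eq_biUnion] at h2)
  refine ⟨𝒱, h3, ?_, ?_⟩
  · have h6 : #𝒱 < ℵ₀ := h4.lt_aleph0
    exact h6.le.trans (Cardinal.aleph0_le_mk _)
  · intro x hx
    apply subset_closure
    refine ⟨hx, ?_⟩
    have := h5 hx
    rw [Set.sUnion_eq_biUnion]
    exact this

/-- The parameter. -/
abbrev PP (P : Type) : Type := Set (P ⊕ ℕ)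

variable {P : Type}

theorem lam0 : ℵ₀ ≤ #(P ⊕ ℕ) := Cardinal.aleph0_le_mk _

theorem lam_lt : #(P ⊕ ℕ) < kap (PP P) := by
  refine lt_of_lt_of_le ?_ (P_le (PP P))
  rw [Cardinal.mk_set]
  exact Cardinal.cantor _

theorem mk_bUnion_le {D ι : Type} (hι : #ι ≤ #(P ⊕ ℕ)) (f : ι → Set D)
    (hf : ∀ i, #(f i) ≤ #(P ⊕ ℕ)) : #(⋃ i, f i) ≤ #(P ⊕ ℕ) :=
  mk_iUnion_le_of lam0 hι f hf

theorem lemmaA {S : Set (XX (PP P))} (hS : WeaklyLindelof P S) {E : Set (DD (PP P))}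
    (hE : #E ≤ kap (PP P)) :
    ∃ A : Set (DD (PP P)), #A ≤ #(P ⊕ ℕ) ∧ S ∩ hat (uu (PP P)) E ⊆ hat (uu (PP P)) A := by
  classical
  have hsm := small hE
  have hdec : ∀ i, E ∈ uu (PP P) i ∨ Eᶜ ∈ uu (PP P) i := fun i => Or.inr (compl_mem_coLE.2 hE)
  have hcompl := compl_hat (good (PP P)).nebot hdec
  obtain ⟨𝒱, h1, h2, h3⟩ := hS
    (insert (hat (uu (PP P)) Eᶜ) {V | ∃ C : Set (DD (PP P)), C.Countable ∧ V = hat (uu (PP P)) C})
    (by
      rintro U (rfl | ⟨C, -, rfl⟩)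
      · exact isOpen_hat _
      · exact isOpen_hat _) (by
      intro y _
      by_cases hy : y ∈ hat (uu (PP P)) E
      · rcases cases y with h | ⟨C, hC, hCc⟩
        · rw [h] at hy
          exact absurd hy hsm.2
        · exact ⟨_, Or.inr ⟨C, hCc, rfl⟩, hC⟩
      · refine ⟨_, Or.inl rfl, ?_⟩
        rw [← hcompl]
        exact hy)
  let f : 𝒱 → Set (DD (PP P)) := fun V =>
    if h : ∃ C : Set (DD (PP P)), C.Countable ∧ V.1 = hat (uu (PP P)) C then h.choose else ∅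
  have hf : ∀ V, #(f V) ≤ #(P ⊕ ℕ) := by
    intro V
    simp only [f]
    split_ifs with h
    · exact (Cardinal.le_aleph0_iff_set_countable.2 h.choose_spec.1).trans lam0
    · simp
  have hA := mk_bUnion_le (P := P) h2 f hf
  refine ⟨⋃ V, f V, hA, ?_⟩
  have hAcl := small (P := PP P) (hA.trans lam_lt.le)
  have hEcl : IsClosed (hat (uu (PP P)) Eᶜ) := by
    rw [← hcompl]
    exact hsm.1.compl.isClosed
  have hsub : S ⊆ hat (uu (PP P)) Eᶜ ∪ hat (uu (PP P)) (⋃ V, f V) := by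
    refine h3.trans (closure_minimal ?_ (hEcl.union hAcl.1.isClosed))
    rintro y ⟨-, V, hV, hyV⟩
    by_cases h : ∃ C : Set (DD (PP P)), C.Countable ∧ V = hat (uu (PP P)) C
    · right
      have h4 : f ⟨V, hV⟩ = h.choose := dif_pos h
      refine hat_mono (subset_iUnion f ⟨V, hV⟩) ?_
      rw [h4, ← h.choose_spec.2]
      exact hyV
    · left
      rcases h1 hV with h5 | h5
      · rw [← h5]
        exact hyV
      · exact absurd h5 h
  rintro y ⟨hy, hyE⟩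
  rcases hsub hy with h | h
  · rw [← hcompl] at h
    exact absurd hyE h
  · exact h

theorem lemmaB {S : Set (XX (PP P))} (hS : WeaklyLindelof P S) :
    ∃ A : Set (DD (PP P)), #A ≤ #(P ⊕ ℕ) ∧
      S \ {ix (uu (PP P)) ()} ⊆ hat (uu (PP P)) A := by
  classical
  let Q : Set (Set (Set (DD (PP P)))) :=
    {𝒯 | (∀ C ∈ 𝒯, #C ≤ #(P ⊕ ℕ) ∧ (S ∩ hat (uu (PP P)) C).Nonempty) ∧ 𝒯.PairwiseDisjoint id}
  obtain ⟨𝒯, h𝒯, hmax⟩ : ∃ 𝒯, Maximal (fun 𝒯 => 𝒯 ∈ Q) 𝒯 := by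
    refine zorn_subset Q ?_
    intro c hc hchain
    refine ⟨⋃₀ c, ⟨?_, ?_⟩, fun s hs => subset_sUnion_of_mem hs⟩
    · rintro C ⟨s, hs, hC⟩; exact (hc hs).1 C hC
    · exact (Set.pairwiseDisjoint_sUnion hchain.directedOn).2 fun s hs => (hc hs).2
  by_cases hcount : #𝒯 ≤ #(P ⊕ ℕ)
  · have hT : #(⋃₀ 𝒯 : Set (DD (PP P))) ≤ #(P ⊕ ℕ) := by
      rw [Set.sUnion_eq_iUnion]
      exact mk_bUnion_le hcount _ fun C => (h𝒯.1 C.1 C.2).1
    refine ⟨⋃₀ 𝒯, hT, ?_⟩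
    rintro x ⟨hxS, hx⟩
    rcases cases x with h | ⟨C, hC, hCc⟩
    · exact (hx h).elim
    by_contra hcon
    have hxE : C \ ⋃₀ 𝒯 ∈ flt (uu (PP P)) x := by
      have h1 : x ∈ (hat (uu (PP P)) (⋃₀ 𝒯))ᶜ := hcon
      rw [compl_hat (good (PP P)).nebot fun i =>
        Or.inr (compl_mem_coLE.2 (hT.trans lam_lt.le))] at h1
      exact Filter.inter_mem hC h1
    have hmem : insert (C \ ⋃₀ 𝒯) 𝒯 ∈ Q := by
      refine ⟨?_, ?_⟩
      · rintro A (rfl | hA)
        · exact ⟨(Cardinal.le_aleph0_iff_set_countable.2 (hCc.mono sdiff_subset)).trans lam0,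
            x, hxS, hxE⟩
        · exact h𝒯.1 A hA
      · refine h𝒯.2.insert fun A hA hne => ?_
        simp only [id]
        rw [Set.disjoint_left]
        intro d hd hdA
        exact hd.2 ⟨A, hA, hdA⟩
    have hin : C \ ⋃₀ 𝒯 ∈ 𝒯 := hmax hmem (subset_insert _ _) (mem_insert _ _)
    have hemp : C \ ⋃₀ 𝒯 = ∅ := by
      ext d
      simp only [mem_empty_iff_false, iff_false]
      intro hd
      exact hd.2 ⟨_, hin, hd⟩
    rw [hemp] at hxE
    exact (flt_neBot (good (PP P)).nebot x).ne (Filter.empty_mem_iff_bot.1 hxE)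
  · exfalso
    have h1 : #(P ⊕ ℕ) < #𝒯 := not_le.1 hcount
    obtain ⟨𝒮, h𝒮, h𝒮c⟩ : ∃ 𝒮 ⊆ 𝒯, #𝒮 = Order.succ #(P ⊕ ℕ) := by
      rw [← Cardinal.le_mk_iff_exists_subset]
      exact Order.succ_le_of_lt h1
    have hal : Order.succ #(P ⊕ ℕ) ≤ kap (PP P) := Order.succ_le_of_lt lam_lt
    have hE : #(⋃₀ 𝒮 : Set (DD (PP P))) ≤ kap (PP P) := by
      rw [Set.sUnion_eq_iUnion]
      refine mk_iUnion_le_of (a0 (PP P)) (h𝒮c.le.trans hal) _ fun C => ?_
      exact (h𝒯.1 C.1 (h𝒮 C.2)).1.trans lam_lt.le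
    obtain ⟨C, hC, hKC⟩ := lemmaA hS hE
    have hmeet : ∀ A : 𝒮, ∃ d ∈ C, d ∈ A.1 := by
      intro A
      obtain ⟨x, hxK, hxA⟩ := (h𝒯.1 A.1 (h𝒮 A.2)).2
      have h2 : x ∈ hat (uu (PP P)) C := hKC ⟨hxK, hat_mono (subset_sUnion_of_mem A.2) hxA⟩
      have h3 : C ∩ A.1 ∈ flt (uu (PP P)) x := Filter.inter_mem h2 hxA
      have h4 : (C ∩ A.1).Nonempty := by
        by_contra h5
        rw [Set.not_nonempty_iff_eq_empty] at h5
        rw [h5] at h3
        exact (flt_neBot (good (PP P)).nebot x).ne (Filter.empty_mem_iff_bot.1 h3)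
      obtain ⟨d, hd1, hd2⟩ := h4
      exact ⟨d, hd1, hd2⟩
    choose f hf1 hf2 using hmeet
    have hinj : Function.Injective fun A : 𝒮 => (⟨f A, hf1 A⟩ : C) := by
      intro A B hAB
      have h5 : f A = f B := congrArg Subtype.val hAB
      by_contra hne
      have h6 : (A.1 : Set (DD (PP P))) ≠ B.1 := fun h => hne (Subtype.ext h)
      have h7 := h𝒯.2 (h𝒮 A.2) (h𝒮 B.2) h6
      exact Set.disjoint_left.1 h7 (hf2 A) (h5 ▸ hf2 B)
    have h8 := Cardinal.mk_le_of_injective hinj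
    rw [h𝒮c] at h8
    exact absurd (h8.trans hC) (not_le.2 (Order.lt_succ _))

/-- **Basically disconnected spaces with a cocompact pretty base, far from locally compact.**

For every set `P` let `λ = max(|P|, ℵ₀)`.  There are a basically disconnected Tychonoff space `X`
with a cocompact pretty base and a non-isolated point `x` of `X` such that for every family `S` of
`λ` weakly `λ`-Lindelöf subspaces of `X`, the point `x` is not in the closure of `(⋃ S i) \ {x}`.  In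
particular no neighbourhood of `x` is covered by `λ` weakly `λ`-Lindelöf subspaces, no neighbourhood
of `x` is weakly `λ`-Lindelöf, and no neighbourhood of `x` is compact. -/
theorem result : ∀ P : Type, ∃ (X : Type) (_ : TopologicalSpace X), T35Space X ∧
    IsBasicallyDisconnected X ∧ HasCocompactPrettyBase X ∧ ∃ x : X, ¬ IsOpen {x} ∧
      (∀ S : P ⊕ ℕ → Set X, (∀ i, WeaklyLindelof P (S i)) → x ∉ closure ((⋃ i, S i) \ {x})) ∧
      (∀ S : P ⊕ ℕ → Set X, (∀ i, WeaklyLindelof P (S i)) → ∀ N ∈ 𝓝 x, ¬ N ⊆ ⋃ i, S i) ∧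
      (∀ N ∈ 𝓝 x, ¬ WeaklyLindelof P N) ∧ (∀ K : Set X, IsCompact K → K ∉ 𝓝 x) := by
  intro P
  have h1 : ∀ S : P ⊕ ℕ → Set (XX (PP P)), (∀ i, WeaklyLindelof P (S i)) →
      ix (uu (PP P)) () ∉ closure ((⋃ i, S i) \ {ix (uu (PP P)) ()}) := by
    intro S hS hx
    choose A hA hSA using fun i => lemmaB (hS i)
    have hE := mk_bUnion_le (P := P) le_rfl A hA
    have hcl := small (P := PP P) (hE.trans lam_lt.le)
    refine hcl.2 (closure_minimal ?_ hcl.1.isClosed hx)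
    rintro y ⟨hy, hne⟩
    obtain ⟨i, hi⟩ := mem_iUnion.1 hy
    exact hat_mono (subset_iUnion A i) (hSA i ⟨hi, hne⟩)
  have h2 : ∀ S : P ⊕ ℕ → Set (XX (PP P)), (∀ i, WeaklyLindelof P (S i)) →
      ∀ N ∈ 𝓝 (ix (uu (PP P)) ()), ¬ N ⊆ ⋃ i, S i := by
    intro S hS N hN hsub
    apply not_open (P := PP P)
    rw [isOpen_iff_mem_nhds]
    intro y hy
    rw [mem_singleton_iff] at hy
    subst hy
    have h3 : (closure ((⋃ i, S i) \ {ix (uu (PP P)) ()}))ᶜ ∈ 𝓝 (ix (uu (PP P)) ()) :=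
      isClosed_closure.isOpen_compl.mem_nhds (h1 S hS)
    refine Filter.mem_of_superset (Filter.inter_mem hN h3) ?_
    rintro z ⟨hz1, hz2⟩
    by_contra hne
    exact hz2 (subset_closure ⟨hsub hz1, hne⟩)
  have h3 : ∀ N ∈ 𝓝 (ix (uu (PP P)) ()), ¬ WeaklyLindelof P N := by
    intro N hN hW
    exact h2 (fun _ => N) (fun _ => hW) N hN (subset_iUnion (fun _ : P ⊕ ℕ => N) (Sum.inr 0))
  refine ⟨XX (PP P), inferInstance, t35 (good (PP P)), ⟨t2 (good (PP P)), ?_, closure_clopen⟩, ?_,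
    ix (uu (PP P)) (), not_open, h1, h2, h3, fun K hK hN =>
      h3 K hN (weaklyLindelof_of_isCompact P hK)⟩
  · refine isTopologicalBasis_of_isOpen_of_nhds (fun U hU => hU.2) ?_
    intro x U hx hU
    obtain ⟨V, ⟨E, hE, rfl⟩, hxV, hVU⟩ :=
      (isBasis_lat (good (PP P))).exists_subset_of_mem_open hx hU
    exact ⟨_, isClopen_hat (good (PP P)) hE, hxV, hVU⟩
  · refine ⟨hat (uu (PP P)) '' Lat (uu (PP P)) (fun _ => Set.univ),
      ⟨isBasis_lat (good (PP P)), ?_, ?_⟩, cocompact (good (PP P))⟩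
    · rintro _ ⟨E, hE, rfl⟩; exact isClopen_hat (good (PP P)) hE
    · intro 𝒞 h𝒞 𝒟 h𝒟 hc hd
      exact nested (good (PP P)) 𝒞 𝒟 h𝒞 h𝒟 hc hd

end Pool.Agent.Results.MP_9e6edb_gt.NotLocallyWeaklyLindelof
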